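import Pool.Agent.Work.MP_64623b_co.Main

/-! Multigraphs with the fewest closed walks when the number of edges is within `n` of a multiple
of `n.choose 2`. -/

open CW

namespace Pool.Agent.Results.MP_64623b_co.NearLayers

theorem result (n a : ℕ) (r : ℤ) (G : MG n) (he : (G.edges : ℤ) = a * n.choose 2 + r)
    (hr : |r| < n ∨ r = n ∧ 5 ≤ n) :
    G.Fewest ↔ ∃ P : Fin (n - r.natAbs) → ℕ,
      if 0 ≤ r then
        G.Two a ∧ (∀ i j, P i ≤ P j + 1) ∧
          Shape (G.lvl (a + 1)) P fun _ : Fin (r.natAbs / n) => n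
      else
        G.Two (a - 1) ∧ (∀ i j, 2 < P i → 2 < P j → i = j) ∧ (∀ i j, P i < 2 → P j ≤ 2) ∧
          Shape (G.lvl (a - 1)) P fun _ : Fin ((2 * r.natAbs - n) / 3) => 3 := by
  rcases lt_or_ge r 0 with h | h
  · obtain ⟨k, rfl⟩ : ∃ k : ℕ, r = -k := ⟨r.natAbs, by omega⟩
    obtain ⟨l, rfl⟩ : ∃ l, a = l + 1 := ⟨a - 1, by
      rcases a with _ | a
      · simp at he; omega
      · rfl⟩
    have hk : k < n := by rw [abs_neg, Nat.abs_cast] at hr; omega
    rw [dense (l := l) (k := k) G (by zify; push_cast at he; linarith) hk,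
      show (-(k : ℤ)).natAbs = k by simp]
    simp only [if_neg h.not_ge, Cond, and_assoc, exists_and_left, Nat.add_sub_cancel]
  obtain ⟨k, rfl⟩ := Int.eq_ofNat_of_zero_le h
  simp only [if_pos h, Int.natAbs_natCast, exists_and_left]
  rcases hr with hr | ⟨hr, h5⟩
  · have hk : k < n := by rw [Nat.abs_cast] at hr; omega
    rw [sparse (l := a) (k := k) G (by exact_mod_cast he) hk, Nat.div_eq_of_lt hk]
    simp only [Subsingleton.elim Fin.elim0 fun _ : Fin 0 => n]
  · obtain rfl : k = n := by omega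
    rw [cycle (l := a) G (by exact_mod_cast he) h5, Nat.div_self (by omega), Nat.sub_self,
      show ![k] = fun _ : Fin 1 => k from funext fun i => by simp]
    exact and_congr_right fun _ => ⟨fun h => ⟨_, fun i => i.elim0, h⟩,
      fun ⟨P, _, h⟩ => Subsingleton.elim P Fin.elim0 ▸ h⟩

end Pool.Agent.Results.MP_64623b_co.NearLayers
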