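import Pool.Agent.Work.MP_64623b_co.E5

/-! Multigraphs with the fewest closed walks, integral average degree: reduction to fewer than
`2 D` vertices. -/

open CW

namespace Pool.Agent.Results.MP_64623b_co.RegularReduction

theorem result (n q D s l : ℕ) (hn : n = (q + 1) * D + s) (hs : s < D) (hl : D ≤ 2 * l + 1)
    (hF : Even (D + s) ∨ 3 * s ≤ 2 * D)
    (G : MG n) (he : 2 * G.edges + n * (D - 1) = 2 * ((l + 1) * n.choose 2)) :
    G.Fewest ↔ ∃ (e : Fin (D + s) ⊕ Fin q × Fin D ≃ Fin n) (K : MG (D + s)),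
      (∀ p p', p ≠ p' → G.mu (e (.inr p)) (e (.inr p')) = if p.1 = p'.1 then l else l + 1) ∧
      (∀ a p, G.mu (e (.inl a)) (e (.inr p)) = l + 1) ∧
      (∀ a b, G.mu (e (.inl a)) (e (.inl b)) = K.mu a b) ∧
      K.Fewest ∧ K.Two l ∧ (∀ a, ∑ b, K.mu a b = l * (D + s - 1) + s) ∧
      ∀ a b c, K.lvl (l + 1) a b → K.lvl (l + 1) b c → ¬ K.lvl (l + 1) c a := by
  obtain ⟨d, rfl⟩ : ∃ d, D = d + 1 := ⟨D - 1, by omega⟩
  rw [Nat.add_sub_cancel] at he
  obtain ⟨F, h⟩ : ∃ F : Fin (d + 1 + s) → Fin (d + 1 + s) → Prop, E.Base s F := by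
    by_cases ev : Even (d + 1 + s)
    · obtain ⟨h, hh⟩ := ev
      rw [hh]
      exact E.base_even (by omega) (by omega)
    obtain ⟨r, hr⟩ : Even s := by
      have : Even (n * d) := ⟨(l + 1) * n.choose 2 - G.edges, by omega⟩
      rw [hn] at this
      simp only [Nat.even_add, Nat.even_mul, Nat.not_even_one] at this ev
      tauto
    have := E.base_odd (r := r) (Nat.not_even_iff_odd.1 ev) (by have := hF.resolve_left ev; omega)
    rwa [← hr] at this
  have e : ∀ x, x + l = l * (d + 1 + s) + s ↔ x = l * (d + 1 + s - 1) + s := fun x => by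
    rw [show d + 1 + s - 1 = d + s by omega, show l * (d + 1 + s) = l * (d + s) + l by ring]
    omega
  have := E.reduction hn hs hl h G (by
    zify at he
    have := E.two_choose n
    push_cast
    linear_combination he + (l + 1) * this)
  simp only [e] at this
  exact this

end Pool.Agent.Results.MP_64623b_co.RegularReduction
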